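import Mathlib
import Pool.Agent.Hhelper18.LeadingForm
import Pool.Agent.Hhelper18.PrimeExt

namespace Pool.Agent.Results.MP_c79496_ag.HypergraphLSSPrime

open MvPolynomial

/-- The polynomial `f_e^{(d)} = ∑_{ℓ} ∏_{i ∈ e} y_{i,ℓ}`; the variable `y_{i,ℓ}` is `X (i, ℓ)`. -/
noncomputable def lssPoly (k : Type*) [Field k] (n d : ℕ) (e : Finset (Fin n)) :
    MvPolynomial (Fin n × Fin d) k :=
  ∑ l : Fin d, ∏ i ∈ e, X (i, l)

/-- The LSS ideal `L_H^k(d)` of the hypergraph `H = ([n], E)`. -/
noncomputable def lssIdeal (k : Type*) [Field k] (n d : ℕ) (E : Finset (Finset (Fin n))) :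
    Ideal (MvPolynomial (Fin n × Fin d) k) :=
  Ideal.span (lssPoly k n d '' (E : Set (Finset (Fin n))))

/-- `M` is a positive matching of the hypergraph with edge set `E`. -/
def IsPositiveMatching {n : ℕ} (E M : Finset (Finset (Fin n))) : Prop :=
  M ⊆ E ∧ (∀ A ∈ M, ∀ B ∈ M, A ≠ B → Disjoint A B) ∧
    ∃ w : Fin n → ℝ, (∀ A ∈ M, 0 < ∑ i ∈ A, w i) ∧ ∀ A ∈ E \ M, ∑ i ∈ A, w i < 0

/-- `P 0, …, P (p-1)` is a positive matching decomposition of `E`. -/
def IsPMD {n : ℕ} (E : Finset (Finset (Fin n))) (p : ℕ)
    (P : Fin p → Finset (Finset (Fin n))) : Prop :=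
  (∀ i, (P i).Nonempty) ∧ (∀ i j, i ≠ j → Disjoint (P i) (P j)) ∧
    Finset.univ.biUnion P = E ∧
    ∀ i, IsPositiveMatching (E \ (Finset.univ.filter (fun j => j < i)).biUnion P) (P i)

/-- `pmd(H)`: the least number of parts of a positive matching decomposition. -/
noncomputable def pmd {n : ℕ} (E : Finset (Finset (Fin n))) : ℕ :=
  sInf {p | ∃ P : Fin p → Finset (Finset (Fin n)), IsPMD E p P}

/-! ### Existence of positive matching decompositions -/

theorem exists_isPMD {n : ℕ} (E : Finset (Finset (Fin n)))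
    (hcl : IsAntichain (· ⊆ ·) (E : Set (Finset (Fin n)))) (hne : ∀ e ∈ E, e.Nonempty) :
    ∃ P : Fin E.card → Finset (Finset (Fin n)), IsPMD E E.card P := by
  classical
  let φ := E.equivFin
  refine ⟨fun i => {(φ.symm i).1}, ?_, ?_, ?_, ?_⟩
  · intro i; simp
  · intro i j hij
    rw [Finset.disjoint_singleton]
    intro h
    exact hij (φ.symm.injective (Subtype.ext h))
  · ext e
    simp only [Finset.mem_biUnion, Finset.mem_univ, true_and, Finset.mem_singleton]
    constructor
    · rintro ⟨i, rfl⟩
      exact (φ.symm i).2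
    · intro he
      exact ⟨φ ⟨e, he⟩, by simp⟩
  · intro i
    set A := (φ.symm i).1 with hA
    have hAE : A ∈ E := (φ.symm i).2
    refine ⟨?_, ?_, fun v => if v ∈ A then 1 else -((n : ℝ) + 1), ?_, ?_⟩
    · intro e he
      rw [Finset.mem_singleton] at he
      subst he
      rw [Finset.mem_sdiff]
      refine ⟨hAE, ?_⟩
      simp only [Finset.mem_biUnion, Finset.mem_filter, Finset.mem_univ, true_and,
        Finset.mem_singleton, not_exists, not_and]
      intro j hj h
      have : i = j := φ.symm.injective (Subtype.ext h)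
      exact absurd hj (by rw [this]; exact lt_irrefl _)
    · intro B hB D hD hBD
      rw [Finset.mem_singleton] at hB hD
      exact absurd (hB.trans hD.symm) hBD
    · intro B hB
      rw [Finset.mem_singleton] at hB
      subst hB
      have : ∑ v ∈ A, (if v ∈ A then (1 : ℝ) else -((n : ℝ) + 1)) = ∑ v ∈ A, (1 : ℝ) :=
        Finset.sum_congr rfl (fun v hv => if_pos hv)
      rw [this]
      have := (hne A hAE).card_pos
      simp only [Finset.sum_const, nsmul_eq_mul, mul_one]
      exact_mod_cast this
    · intro B hB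
      rw [Finset.mem_sdiff, Finset.mem_sdiff, Finset.mem_singleton] at hB
      obtain ⟨⟨hBE, _⟩, hBA⟩ := hB
      have hnot : ¬ B ⊆ A := fun h => hcl hBE hAE hBA h
      obtain ⟨b, hbB, hbA⟩ := Finset.not_subset.1 hnot
      rw [← Finset.add_sum_erase B _ hbB, if_neg hbA]
      have h1 : ∑ v ∈ B.erase b, (if v ∈ A then (1 : ℝ) else -((n : ℝ) + 1)) ≤
          ∑ v ∈ B.erase b, (1 : ℝ) := by
        refine Finset.sum_le_sum (fun v _ => ?_)
        split_ifs
        · exact le_rfl
        · have : (0 : ℝ) ≤ n := Nat.cast_nonneg n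
          linarith
      have h2 : ((B.erase b).card : ℝ) ≤ n := by
        have := Finset.card_le_univ (B.erase b)
        rw [Fintype.card_fin] at this
        exact_mod_cast this
      simp only [Finset.sum_const, nsmul_eq_mul, mul_one] at h1
      linarith

/-- The least number is attained. -/
theorem pmd_spec {n : ℕ} (E : Finset (Finset (Fin n)))
    (hcl : IsAntichain (· ⊆ ·) (E : Set (Finset (Fin n)))) (hne : ∀ e ∈ E, e.Nonempty) :
    ∃ P : Fin (pmd E) → Finset (Finset (Fin n)), IsPMD E (pmd E) P :=
  Nat.sInf_mem (s := {p | ∃ P : Fin p → Finset (Finset (Fin n)), IsPMD E p P})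
    ⟨_, exists_isPMD E hcl hne⟩

/-! ### Recursive form -/

/-- Recursive form of `having a positive matching decomposition with at most p parts`. -/
def HasPMD {n : ℕ} : ℕ → Finset (Finset (Fin n)) → Prop
  | 0, E => E = ∅
  | p + 1, E => ∃ M, IsPositiveMatching E M ∧ HasPMD p (E \ M)

theorem hasPMD_of_isPMD {n : ℕ} : ∀ (p : ℕ) (E : Finset (Finset (Fin n)))
    (P : Fin p → Finset (Finset (Fin n))), IsPMD E p P → HasPMD p E := by
  intro p
  induction p with
  | zero =>
    intro E P h
    obtain ⟨_, _, h3, _⟩ := h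
    have h3 : E = ∅ := by simpa using h3.symm
    exact h3
  | succ p ih =>
    intro E P h
    obtain ⟨h1, h2, h3, h4⟩ := h
    refine ⟨P 0, ?_, ih (E \ P 0) (fun i => P i.succ) ⟨fun i => h1 _, ?_, ?_, ?_⟩⟩
    · have := h4 0
      have h5 : (Finset.univ.filter (fun j : Fin (p + 1) => j < 0)).biUnion P = ∅ := by
        simp
      rwa [h5, Finset.sdiff_empty] at this
    · intro i j hij
      exact h2 _ _ (fun h => hij (Fin.succ_injective _ h))
    · ext e
      rw [Finset.mem_sdiff, ← h3]
      simp only [Finset.mem_biUnion, Finset.mem_univ, true_and]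
      constructor
      · rintro ⟨i, hi⟩
        refine ⟨⟨_, hi⟩, fun h0 => ?_⟩
        exact (Finset.disjoint_left.1 (h2 i.succ 0 (Fin.succ_ne_zero i))) hi h0
      · rintro ⟨⟨i, hi⟩, h0⟩
        rcases Fin.eq_zero_or_eq_succ i with rfl | ⟨j, rfl⟩
        · exact absurd hi h0
        · exact ⟨j, hi⟩
    · intro i
      have := h4 i.succ
      have h5 : E \ (Finset.univ.filter (fun j : Fin (p + 1) => j < i.succ)).biUnion P =
          (E \ P 0) \ (Finset.univ.filter (fun j : Fin p => j < i)).biUnion
            (fun j => P j.succ) := by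
        ext e
        simp only [Finset.mem_sdiff, Finset.mem_biUnion, Finset.mem_filter, Finset.mem_univ,
          true_and, not_exists, not_and]
        constructor
        · rintro ⟨he, h⟩
          exact ⟨⟨he, h 0 (Fin.succ_pos i)⟩, fun j hj => h j.succ (Fin.succ_lt_succ_iff.2 hj)⟩
        · rintro ⟨⟨he, h0⟩, h⟩
          refine ⟨he, fun j hj => ?_⟩
          rcases Fin.eq_zero_or_eq_succ j with rfl | ⟨j, rfl⟩
          · exact h0
          · exact h j (Fin.succ_lt_succ_iff.1 hj)
      rwa [h5] at this

theorem HasPMD.subset {n : ℕ} : ∀ (p : ℕ) (E A : Finset (Finset (Fin n))), HasPMD p E → A ⊆ E →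
    HasPMD p A := by
  intro p
  induction p with
  | zero =>
    intro E A h hA
    have h : E = ∅ := h
    subst h
    exact Finset.subset_empty.1 hA
  | succ p ih =>
    intro E A h hA
    obtain ⟨M, ⟨hM1, hM2, w, hw1, hw2⟩, hrest⟩ := h
    refine ⟨M ∩ A, ⟨Finset.inter_subset_right, ?_, w, ?_, ?_⟩, ih (E \ M) _ hrest ?_⟩
    · intro B hB D hD
      exact hM2 B (Finset.mem_of_mem_inter_left hB) D (Finset.mem_of_mem_inter_left hD)
    · intro B hB
      exact hw1 B (Finset.mem_of_mem_inter_left hB)
    · intro B hB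
      rw [Finset.mem_sdiff, Finset.mem_inter, not_and] at hB
      exact hw2 B (Finset.mem_sdiff.2 ⟨hA hB.1, fun h => hB.2 h hB.1⟩)
    · intro B hB
      rw [Finset.mem_sdiff, Finset.mem_inter, not_and] at hB
      exact Finset.mem_sdiff.2 ⟨hA hB.1, fun h => hB.2 h hB.1⟩

/-! ### Integer weights -/

theorem exists_int_weight {n : ℕ} (E M : Finset (Finset (Fin n)))
    (hne : ∀ A ∈ M, A.Nonempty)
    (hdisj : ∀ A ∈ M, ∀ B ∈ M, A ≠ B → Disjoint A B) (w : Fin n → ℝ)
    (hpos : ∀ A ∈ M, 0 < ∑ i ∈ A, w i) (hneg : ∀ B ∈ E \ M, ∑ i ∈ B, w i < 0) :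
    ∃ w' : Fin n → ℤ, (∀ A ∈ M, ∑ i ∈ A, w' i = 0) ∧ ∀ B ∈ E \ M, ∑ i ∈ B, w' i < 0 := by
  classical
  -- scaling
  obtain ⟨K, hK1, hK⟩ : ∃ K : ℕ, 1 ≤ K ∧ ∀ A ∈ M, (n : ℝ) ≤ K * ∑ i ∈ A, w i := by
    have h1 : ∀ A ∈ M, ∃ K : ℕ, (n : ℝ) / (∑ i ∈ A, w i) ≤ K := fun A _ => exists_nat_ge _
    choose! κ hκ using h1
    refine ⟨1 + ∑ A ∈ M, κ A, Nat.le_add_right _ _, fun A hA => ?_⟩
    have h2 : (κ A : ℝ) ≤ ((1 + ∑ A ∈ M, κ A : ℕ) : ℝ) := by
      have : κ A ≤ ∑ A ∈ M, κ A := Finset.single_le_sum (fun _ _ => Nat.zero_le _) hA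
      exact_mod_cast this.trans (Nat.le_add_left _ _)
    have h3 := (div_le_iff₀ (hpos A hA)).1 ((hκ A hA).trans h2)
    exact h3
  set w1 : Fin n → ℤ := fun i => ⌊(K : ℝ) * w i⌋ with hw1
  have hw1pos : ∀ A ∈ M, 0 ≤ ∑ i ∈ A, w1 i := by
    intro A hA
    have h1 : ∑ i ∈ A, ((K : ℝ) * w i - 1) ≤ ∑ i ∈ A, ((w1 i : ℤ) : ℝ) := by
      refine Finset.sum_le_sum (fun i _ => ?_)
      exact (Int.sub_one_lt_floor _).le
    rw [Finset.sum_sub_distrib, ← Finset.mul_sum] at h1
    have h2 : ∑ i ∈ A, (1 : ℝ) ≤ n := by
      have := Finset.card_le_univ A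
      rw [Fintype.card_fin] at this
      simp only [Finset.sum_const, nsmul_eq_mul, mul_one]
      exact_mod_cast this
    have h3 := hK A hA
    have h4 : (0 : ℝ) ≤ ((∑ i ∈ A, w1 i : ℤ) : ℝ) := by
      rw [Int.cast_sum]
      linarith
    exact_mod_cast h4
  have hw1neg : ∀ B ∈ E \ M, ∑ i ∈ B, w1 i < 0 := by
    intro B hB
    have h1 : ∑ i ∈ B, ((w1 i : ℤ) : ℝ) ≤ ∑ i ∈ B, ((K : ℝ) * w i) := by
      refine Finset.sum_le_sum (fun i _ => ?_)
      exact Int.floor_le _
    rw [← Finset.mul_sum] at h1
    have h2 : (K : ℝ) * ∑ i ∈ B, w i < 0 := by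
      refine mul_neg_of_pos_of_neg ?_ (hneg B hB)
      exact_mod_cast hK1
    have h3 : ((∑ i ∈ B, w1 i : ℤ) : ℝ) < 0 := by
      rw [Int.cast_sum]
      linarith
    exact_mod_cast h3
  -- choice of vertices
  have hv : ∀ A ∈ M, ∃ v : Fin n, v ∈ A := fun A hA => hne A hA
  rcases isEmpty_or_nonempty (Fin n) with hempty | hnonempty
  · exact ⟨w1, fun A hA => (hempty.false (hv A hA).choose).elim, hw1neg⟩
  choose! v hv using hv
  refine ⟨fun i => w1 i - ∑ A ∈ M, if v A = i then ∑ j ∈ A, w1 j else 0, ?_, ?_⟩
  · intro B hB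
    rw [Finset.sum_sub_distrib, Finset.sum_comm]
    have h1 : ∑ A ∈ M, ∑ i ∈ B, (if v A = i then ∑ j ∈ A, w1 j else 0) = ∑ j ∈ B, w1 j := by
      rw [Finset.sum_eq_single B]
      · rw [Finset.sum_ite_eq]
        exact if_pos (hv B hB)
      · intro A hA hAB
        rw [Finset.sum_ite_eq]
        refine if_neg (fun h => ?_)
        exact (Finset.disjoint_left.1 (hdisj A hA B hB hAB)) (hv A hA) h
      · intro h
        exact absurd hB h
    rw [h1, sub_self]
  · intro B hB
    rw [Finset.sum_sub_distrib, Finset.sum_comm]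
    have h1 : 0 ≤ ∑ A ∈ M, ∑ i ∈ B, (if v A = i then ∑ j ∈ A, w1 j else 0) := by
      refine Finset.sum_nonneg (fun A hA => ?_)
      rw [Finset.sum_ite_eq]
      split_ifs
      · exact hw1pos A hA
      · exact le_rfl
    have h2 := hw1neg B hB
    linarith

/-! ### The grading homomorphism -/

/-- `X s ↦ X s * T ^ (W s)`. -/
noncomputable def theta {σ k : Type*} [Field k] (W : σ → ℕ) :
    MvPolynomial σ k →+* Polynomial (MvPolynomial σ k) :=
  eval₂Hom (Polynomial.C.comp C) (fun s => Polynomial.monomial (W s) (X s))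

theorem theta_eval_one {σ k : Type*} [Field k] (W : σ → ℕ) (x : MvPolynomial σ k) :
    (theta W x).eval 1 = x := by
  have h : (Polynomial.evalRingHom (1 : MvPolynomial σ k)).comp (theta W) = RingHom.id _ := by
    apply MvPolynomial.ringHom_ext
    · intro r
      simp [theta]
    · intro i
      simp [theta]
  have := congrArg (fun φ : MvPolynomial σ k →+* MvPolynomial σ k => φ x) h
  simpa using this

theorem theta_coeff {σ k : Type*} [Field k] (W : σ → ℕ) (x : MvPolynomial σ k) :
    ∀ n, theta W ((theta W x).coeff n) = Polynomial.monomial n ((theta W x).coeff n) := by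
  have hmul : ∀ x y : MvPolynomial σ k,
      (∀ n, theta W ((theta W x).coeff n) = Polynomial.monomial n ((theta W x).coeff n)) →
      (∀ n, theta W ((theta W y).coeff n) = Polynomial.monomial n ((theta W y).coeff n)) →
      (∀ n, theta W ((theta W (x * y)).coeff n) =
        Polynomial.monomial n ((theta W (x * y)).coeff n)) := by
    intro x y hx hy n
    rw [map_mul (theta W) x y, Polynomial.coeff_mul, map_sum, map_sum]
    refine Finset.sum_congr rfl (fun p hp => ?_)
    rw [map_mul, hx, hy, Polynomial.monomial_mul_monomial,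
      Finset.HasAntidiagonal.mem_antidiagonal.1 hp]
  have hX : ∀ (s : σ) (n : ℕ), theta W ((theta W (X s : MvPolynomial σ k)).coeff n) =
      Polynomial.monomial n ((theta W (X s : MvPolynomial σ k)).coeff n) := by
    intro s n
    have h1 : theta W (X s : MvPolynomial σ k) = Polynomial.monomial (W s) (X s) := by
      simp [theta]
    rw [h1, Polynomial.coeff_monomial]
    split_ifs with h
    · rw [h1, h]
    · simp
  induction x using MvPolynomial.induction_on with
  | C a =>
    intro n
    have h1 : theta W (C a : MvPolynomial σ k) = Polynomial.C (C a) := by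
      simp [theta]
    rw [h1, Polynomial.coeff_C]
    split_ifs with h
    · rw [h1, h, Polynomial.monomial_zero_left]
    · simp
  | add p q hp hq =>
    intro n
    rw [map_add, Polynomial.coeff_add, map_add, map_add, hp, hq]
  | mul_X p s hp => exact hmul p (X s) hp (hX s)

theorem theta_prod {σ k ι : Type*} [Field k] (W : σ → ℕ) (e : Finset ι) (φ : ι → σ) :
    theta W (∏ i ∈ e, X (φ i) : MvPolynomial σ k) =
      Polynomial.monomial (∑ i ∈ e, W (φ i)) (∏ i ∈ e, X (φ i)) := by
  classical
  induction e using Finset.induction_on with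
  | empty => simp [Polynomial.monomial_zero_left]
  | insert i e hi ih =>
    rw [Finset.prod_insert hi, Finset.sum_insert hi, map_mul, ih,
      ← Polynomial.monomial_mul_monomial]
    congr 1
    simp [theta]

/-! ### The induction -/

/-- The polynomial `∑_{ℓ ∈ D} ∏_{i ∈ e} y_{i,ℓ}`. -/
noncomputable def polyC (k : Type*) [Field k] {n d : ℕ} (D : Finset (Fin d))
    (e : Finset (Fin n)) : MvPolynomial (Fin n × Fin d) k :=
  ∑ l ∈ D, ∏ i ∈ e, X (i, l)

/-- Evaluation at a point supported on the edge `e` and the colour `l₀`. -/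
noncomputable def evE (k : Type*) [Field k] {n d : ℕ} (e : Finset (Fin n)) (l₀ : Fin d) :
    MvPolynomial (Fin n × Fin d) k →+* k :=
  MvPolynomial.eval (fun s => if s.1 ∈ e ∧ s.2 = l₀ then 1 else 0)

theorem evE_self (k : Type*) [Field k] {n d : ℕ} {e : Finset (Fin n)} (he : e.Nonempty)
    (l₀ : Fin d) (D : Finset (Fin d)) (hl : l₀ ∈ D) : evE k e l₀ (polyC k D e) = 1 := by
  rw [polyC, map_sum, Finset.sum_eq_single l₀]
  · rw [map_prod]
    refine Finset.prod_eq_one (fun i hi => ?_)
    simp [evE, hi]
  · intro l _ hl'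
    rw [map_prod]
    obtain ⟨i, hi⟩ := he
    refine Finset.prod_eq_zero hi ?_
    simp [evE, hl']
  · intro h
    exact absurd hl h

theorem evE_other (k : Type*) [Field k] {n d : ℕ} {e e' : Finset (Fin n)} (he : ¬ e' ⊆ e)
    (l₀ : Fin d) (D : Finset (Fin d)) : evE k e l₀ (polyC k D e') = 0 := by
  obtain ⟨i, hi, hie⟩ := Finset.not_subset.1 he
  rw [polyC, map_sum]
  refine Finset.sum_eq_zero (fun l _ => ?_)
  rw [map_prod]
  refine Finset.prod_eq_zero hi ?_
  simp [evE, hie]

theorem main_aux (k : Type*) [Field k] {n d : ℕ} : ∀ (p : ℕ) (E : Finset (Finset (Fin n))),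
    (∀ e ∈ E, e.Nonempty) → IsAntichain (· ⊆ ·) (E : Set (Finset (Fin n))) → HasPMD p E →
    ∀ D : Finset (Fin d), p + 1 ≤ D.card →
      (Ideal.span (polyC k D '' (E : Set (Finset (Fin n))))).IsPrime := by
  classical
  intro p
  induction p with
  | zero =>
    intro E _ _ h D _
    have h : E = ∅ := h
    subst h
    simp only [Finset.coe_empty, Set.image_empty, Ideal.span_empty]
    exact Ideal.isPrime_bot
  | succ p ih =>
    intro E hne hcl h D hD
    obtain ⟨M, ⟨hME, hdisj, w, hpos, hneg⟩, hrest⟩ := h
    obtain ⟨w', hw'M, hw'E⟩ := exists_int_weight E M (fun A hA => hne A (hME hA)) hdisj w hpos hneg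
    obtain ⟨c, hc⟩ : D.Nonempty := by
      rw [← Finset.card_pos]; omega
    set D' := D.erase c with hD'
    have hD'card : p + 1 ≤ D'.card := by
      rw [hD', Finset.card_erase_of_mem hc]; omega
    obtain ⟨l₀, hl₀⟩ : D'.Nonempty := by
      rw [← Finset.card_pos]; omega
    have hl₀D : l₀ ∈ D := Finset.mem_of_mem_erase hl₀
    -- weights
    set N : ℕ := ∑ i, (w' i).natAbs with hN
    have hNw : ∀ i, 0 ≤ (N : ℤ) + w' i := by
      intro i
      have : (w' i).natAbs ≤ N := Finset.single_le_sum (f := fun i => (w' i).natAbs)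
        (fun _ _ => Nat.zero_le _) (Finset.mem_univ i)
      omega
    set W : Fin n × Fin d → ℕ := fun s => if s.2 = c then ((N : ℤ) + w' s.1).toNat else N with hW
    have hWc : ∀ e : Finset (Fin n), ((∑ i ∈ e, W (i, c) : ℕ) : ℤ) =
        (e.card * N : ℕ) + ∑ i ∈ e, w' i := by
      intro e
      rw [Nat.cast_sum]
      have : ∀ i ∈ e, ((W (i, c) : ℕ) : ℤ) = (N : ℤ) + w' i := by
        intro i _
        simp only [hW, if_true]
        exact Int.toNat_of_nonneg (hNw i)
      rw [Finset.sum_congr rfl this, Finset.sum_add_distrib]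
      simp
    have hWl : ∀ (e : Finset (Fin n)) (l : Fin d), l ≠ c → ∑ i ∈ e, W (i, l) = e.card * N := by
      intro e l hl
      have : ∀ i ∈ e, W (i, l) = N := by
        intro i _
        simp [hW, hl]
      rw [Finset.sum_congr rfl this]
      simp
    have hWM : ∀ e ∈ M, ∀ l, ∑ i ∈ e, W (i, l) = e.card * N := by
      intro e he l
      by_cases hl : l = c
      · subst hl
        have := hWc e
        rw [hw'M e he, add_zero] at this
        exact_mod_cast this
      · exact hWl e l hl
    have hWE : ∀ e ∈ E \ M, ∑ i ∈ e, W (i, c) < e.card * N := by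
      intro e he
      have h1 := hWc e
      have h2 := hw'E e he
      have h3 : ((∑ i ∈ e, W (i, c) : ℕ) : ℤ) < ((e.card * N : ℕ) : ℤ) := by
        rw [h1]; linarith
      exact_mod_cast h3
    set f : Finset (Fin n) → MvPolynomial (Fin n × Fin d) k := polyC k D with hf
    set F : Finset (Fin n) → MvPolynomial (Fin n × Fin d) k :=
      fun e => if e ∈ M then polyC k D e else polyC k D' e with hF
    have htheta : ∀ e, theta W (f e) =
        ∑ l ∈ D, Polynomial.monomial (∑ i ∈ e, W (i, l)) (∏ i ∈ e, X (i, l)) := by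
      intro e
      rw [hf, polyC, map_sum]
      exact Finset.sum_congr rfl (fun l _ => theta_prod W e (fun i => (i, l)))
    have hdeg : ∀ e ∈ E, (theta W (f e)).natDegree ≤ e.card * N := by
      intro e he
      rw [htheta]
      refine Polynomial.natDegree_sum_le_of_forall_le _ _ (fun l _ => ?_)
      refine (Polynomial.natDegree_monomial_le _).trans ?_
      by_cases heM : e ∈ M
      · exact (hWM e heM l).le
      · by_cases hl : l = c
        · subst hl
          exact (hWE e (Finset.mem_sdiff.2 ⟨he, heM⟩)).le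
        · exact (hWl e l hl).le
    have hcoef : ∀ e ∈ E, (theta W (f e)).coeff (e.card * N) = F e := by
      intro e he
      rw [htheta, Polynomial.finsetSum_coeff]
      by_cases heM : e ∈ M
      · simp only [hF, if_pos heM, polyC]
        refine Finset.sum_congr rfl (fun l _ => ?_)
        rw [Polynomial.coeff_monomial, if_pos (hWM e heM l)]
      · simp only [hF, if_neg heM, polyC]
        rw [← Finset.add_sum_erase D _ hc, Polynomial.coeff_monomial,
          if_neg (hWE e (Finset.mem_sdiff.2 ⟨he, heM⟩)).ne, zero_add]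
        refine Finset.sum_congr rfl (fun l hl => ?_)
        rw [Polynomial.coeff_monomial, if_pos (hWl e l (Finset.ne_of_mem_erase hl))]
    have hFself : ∀ e ∈ E, evE k e l₀ (F e) = 1 := by
      intro e he
      simp only [hF]
      split_ifs
      · exact evE_self k (hne e he) l₀ D hl₀D
      · exact evE_self k (hne e he) l₀ D' hl₀
    have hFother : ∀ e ∈ E, ∀ e' ∈ E, e' ≠ e → evE k e l₀ (F e') = 0 := by
      intro e he e' he' hee'
      have : ¬ e' ⊆ e := fun h => hcl he' he hee' h
      simp only [hF]
      split_ifs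
      · exact evE_other k this l₀ D
      · exact evE_other k this l₀ D'
    have hkill : ∀ A ⊆ E, ∀ e ∈ E, e ∉ A →
        Ideal.span (F '' (A : Set (Finset (Fin n)))) ≤ RingHom.ker (evE k e l₀) := by
      intro A hA e he heA
      rw [Ideal.span_le]
      rintro x ⟨e', he', rfl⟩
      exact hFother e he e' (hA he') (fun h => heA (h ▸ he'))
    have hnot : ∀ A ⊆ E, ∀ e ∈ E, e ∉ A → F e ∉ Ideal.span (F '' (A : Set (Finset (Fin n)))) := by
      intro A hA e he heA hmem
      have := hkill A hA e he heA hmem
      rw [RingHom.mem_ker, hFself e he] at this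
      exact one_ne_zero this
    -- primeness of the ideals of leading forms
    have hprime : ∀ A ⊆ E, (Ideal.span (F '' (A : Set (Finset (Fin n))))).IsPrime := by
      intro A hA
      have key : ∀ B ⊆ A ∩ M, (Ideal.span (F '' (((A \ M) ∪ B : Finset (Finset (Fin n))) :
          Set (Finset (Fin n))))).IsPrime := by
        intro B
        induction B using Finset.induction_on with
        | empty =>
          intro _
          rw [Finset.union_empty]
          have h1 : F '' ((A \ M : Finset (Finset (Fin n))) : Set (Finset (Fin n))) =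
              polyC k D' '' ((A \ M : Finset (Finset (Fin n))) : Set (Finset (Fin n))) := by
            refine Set.image_congr (fun e he => ?_)
            have : e ∉ M := (Finset.mem_sdiff.1 he).2
            simp only [hF, if_neg this]
          rw [h1]
          have hsub : A \ M ⊆ E \ M := Finset.sdiff_subset_sdiff hA (Finset.Subset.refl _)
          have hsub' : A \ M ⊆ E := Finset.sdiff_subset.trans hA
          exact ih (A \ M) (fun e he => hne e (hsub' he))
            (hcl.subset (Finset.coe_subset.2 hsub')) (HasPMD.subset p _ _ hrest hsub) D' hD'card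
        | insert e B heB ihB =>
          intro hB
          have heAM : e ∈ A ∩ M := hB (Finset.mem_insert_self _ _)
          have hBAM : B ⊆ A ∩ M := fun x hx => hB (Finset.mem_insert_of_mem hx)
          have heM : e ∈ M := (Finset.mem_inter.1 heAM).2
          have heE : e ∈ E := hME heM
          have hp := ihB hBAM
          have hAB : (A \ M) ∪ B ⊆ E := by
            refine Finset.union_subset (Finset.sdiff_subset.trans hA) ?_
            exact fun x hx => hME (Finset.mem_inter.1 (hBAM hx)).2
          have heAB : e ∉ (A \ M) ∪ B := by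
            rw [Finset.mem_union, not_or]
            exact ⟨fun h => (Finset.mem_sdiff.1 h).2 heM, heB⟩
          have hins : F '' (((A \ M) ∪ insert e B : Finset (Finset (Fin n))) :
              Set (Finset (Fin n))) = insert (F e) (F '' (((A \ M) ∪ B :
              Finset (Finset (Fin n))) : Set (Finset (Fin n)))) := by
            rw [Finset.union_insert, Finset.coe_insert, Set.image_insert_eq]
          rw [hins]
          set T : Finset (Fin n × Fin d) := e.image (fun i => (i, c)) with hT
          have hTmem : ∀ i l, (i, l) ∈ T ↔ i ∈ e ∧ l = c := by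
            intro i l
            simp only [hT, Finset.mem_image, Prod.mk.injEq]
            constructor
            · rintro ⟨j, hj, rfl, rfl⟩
              exact ⟨hj, rfl⟩
            · rintro ⟨hi, rfl⟩
              exact ⟨i, hi, rfl, rfl⟩
          have hFe : F e = (∏ t ∈ T, X t) + polyC k D' e := by
            simp only [hF, if_pos heM, polyC]
            rw [← Finset.add_sum_erase D _ hc, hT, Finset.prod_image]
            intro i _ j _ hij
            exact (Prod.mk.inj hij).1
          rw [hFe]
          have hsupp' : ∀ e' : Finset (Fin n), polyC k D' e' ∈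
              supported k ((T : Set (Fin n × Fin d))ᶜ) := by
            intro e'
            refine Subalgebra.sum_mem _ (fun l hl => Subalgebra.prod_mem _ (fun i _ => ?_))
            rw [X_mem_supported, Set.mem_compl_iff, Finset.mem_coe, hTmem]
            exact fun h => (Finset.ne_of_mem_erase hl) h.2
          refine Pool.Agent.Hhelper18.prime_ext ?_ ?_ hp (hsupp' e) ?_
          · obtain ⟨i, hi⟩ := hne e heE
            exact ⟨(i, c), (hTmem i c).2 ⟨hi, rfl⟩⟩
          · rintro x ⟨e', he', rfl⟩
            by_cases he'M : e' ∈ M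
            · simp only [hF, if_pos he'M]
              have hne' : e' ≠ e := fun h => heAB (h ▸ he')
              have hd := hdisj e' he'M e heM hne'
              refine Subalgebra.sum_mem _ (fun l hl => Subalgebra.prod_mem _ (fun i hi => ?_))
              rw [X_mem_supported, Set.mem_compl_iff, Finset.mem_coe, hTmem]
              exact fun h => (Finset.disjoint_left.1 hd) hi h.1
            · simp only [hF, if_neg he'M]
              exact hsupp' e'
          · intro hmem
            have := hkill _ hAB e heE heAB hmem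
            rw [RingHom.mem_ker, evE_self k (hne e heE) l₀ D' hl₀] at this
            exact one_ne_zero this
      have h1 := key (A ∩ M) (Finset.Subset.refl _)
      rwa [Finset.sdiff_union_inter] at h1
    exact Pool.Agent.Hhelper18.prime_of_leading (theta W) (theta_eval_one W) (theta_coeff W)
      f F (fun e => e.card * N) E hdeg hcoef hprime hnot

/-- **Main theorem.** For every field `k`, every hypergraph `H = ([n], E)` whose edge set is a
clutter of nonempty sets, and every `d ≥ pmd(H) + 1`, the LSS ideal `L_H^k(d)` is prime. -/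
theorem result (k : Type*) [Field k] (n : ℕ) (E : Finset (Finset (Fin n)))
    (hne : ∀ e ∈ E, e.Nonempty)
    (hclutter : IsAntichain (· ⊆ ·) (E : Set (Finset (Fin n))))
    (d : ℕ) (hd : pmd E + 1 ≤ d) : (lssIdeal k n d E).IsPrime := by
  obtain ⟨P, hP⟩ := pmd_spec E hclutter hne
  exact main_aux k (pmd E) E hne hclutter (hasPMD_of_isPMD _ _ _ hP) Finset.univ
    (by rw [Finset.card_univ, Fintype.card_fin]; exact hd)

end Pool.Agent.Results.MP_c79496_ag.HypergraphLSSPrime
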